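import Pool.Agent.N547.Str.Shape

set_option autoImplicit false
open Real Set MeasureTheory Filter Topology
open scoped ENNReal NNReal

namespace Pool.Agent.N547.Str

open Pool.Agent.R763.Str

/-- two compact convex sets with the same support function are equal -/
theorem eq_of_hs {K L : Set E2} (hK : IsCompact K) (hKc : Convex ℝ K) (hKn : K.Nonempty)
    (hL : IsCompact L) (hLc : Convex ℝ L) (hLn : L.Nonempty) (h : ∀ θ, hs K θ = hs L θ) : K = L := by
  ext x
  rw [mem_iff hK hKc hKn, mem_iff hL hLc hLn]
  simp only [h]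

/-- the linear map `(x, y) ↦ (p x, q x + r y)` -/
noncomputable def triMap (p q r : ℝ) (hp : p ≠ 0) (hr : r ≠ 0) : E2 ≃ₗ[ℝ] E2 where
  toFun x := !₂[p * x 0, q * x 0 + r * x 1]
  map_add' x y := by
    ext i; fin_cases i
    · simp; ring
    · simp; ring
  map_smul' c x := by
    ext i; fin_cases i
    · simp; ring
    · simp; ring
  invFun x := !₂[x 0 / p, (x 1 - q * (x 0 / p)) / r]
  left_inv x := by
    ext i; fin_cases i
    · simp; field_simp
    · simp; field_simp; ring
  right_inv x := by
    ext i; fin_cases i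
    · simp; field_simp
    · simp; field_simp; ring

theorem pr_triMap (p q r : ℝ) (hp : p ≠ 0) (hr : r ≠ 0) (x : E2) (θ : ℝ) :
    pr (triMap p q r hp hr x) θ = x 0 * (p * cos θ + q * sin θ) + x 1 * (r * sin θ) := by
  simp only [pr, triMap, LinearEquiv.coe_mk, LinearMap.coe_mk, AddHom.coe_mk, PiLp.toLp_apply,
    Matrix.cons_val_zero, Matrix.cons_val_one]
  ring

/-- ellipses from the support function -/
theorem ellipse_of_support {K : Set E2} (hK : IsCompact K) (hc : Convex ℝ K) (hne : K.Nonempty)
    {a b A B D : ℝ} (hpos : ∀ θ, 0 < D + A * cos (2 * θ) + B * sin (2 * θ))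
    (hsup : ∀ θ, hs K θ = a * cos θ + b * sin θ + √(D + A * cos (2 * θ) + B * sin (2 * θ))) :
    ∃ f : E2 ≃ᵃ[ℝ] E2, K = f '' Metric.closedBall 0 1 := by
  have hpi := Real.pi_pos
  -- positivity of the form
  have h1 : 0 < D + A := by have := hpos 0; simpa using this
  have hall : ∀ X Y : ℝ, (X, Y) ≠ (0, 0) →
      0 < (D + A) * X ^ 2 + 2 * B * (X * Y) + (D - A) * Y ^ 2 := by
    intro X Y hXY
    obtain ⟨θ, hX, hY⟩ := exists_polar X Y
    set ρ := √(X ^ 2 + Y ^ 2) with hρ
    have hρpos : 0 < ρ := by
      rw [hρ]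
      apply Real.sqrt_pos.2
      by_contra hcon
      push Not at hcon
      have hx : X = 0 := by nlinarith [sq_nonneg X, sq_nonneg Y]
      have hy : Y = 0 := by nlinarith [sq_nonneg X, sq_nonneg Y]
      exact hXY (by rw [hx, hy])
    have h2 := hpos θ
    rw [Real.cos_two_mul, Real.sin_two_mul] at h2
    have h3 : (D + A) * X ^ 2 + 2 * B * (X * Y) + (D - A) * Y ^ 2
        = ρ ^ 2 * (D + A * (2 * cos θ ^ 2 - 1) + B * (2 * sin θ * cos θ)) := by
      rw [hX, hY]
      have hsc := Real.sin_sq_add_cos_sq θ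
      have hs2 : sin θ ^ 2 = 1 - cos θ ^ 2 := by linarith
      ring_nf
      rw [hs2]
      ring
    rw [h3]
    positivity
  have hdet : 0 < (D + A) * (D - A) - B ^ 2 := by
    have := hall (-B) (D + A) (by
      intro h
      have := congrArg Prod.snd h
      simp only at this
      linarith)
    have h2 : (D + A) * (-B) ^ 2 + 2 * B * (-B * (D + A)) + (D - A) * (D + A) ^ 2
        = (D + A) * ((D + A) * (D - A) - B ^ 2) := by ring
    rw [h2] at this
    exact (pos_iff_pos_of_mul_pos this).1 h1
  set p := √(D + A) with hp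
  have hppos : 0 < p := Real.sqrt_pos.2 h1
  have hpsq : p ^ 2 = D + A := Real.sq_sqrt h1.le
  set s := B / p with hs'
  set r := √((D + A) * (D - A) - B ^ 2) / p with hr
  have hrpos : 0 < r := div_pos (Real.sqrt_pos.2 hdet) hppos
  have hps : p * s = B := by rw [hs']; field_simp
  have hrsq : s ^ 2 + r ^ 2 = D - A := by
    rw [hs', hr, div_pow, div_pow, Real.sq_sqrt hdet.le, hpsq]
    field_simp
    ring
  set v : E2 := !₂[a, b] with hv
  have hprv : ∀ θ, pr v θ = a * cos θ + b * sin θ := by
    intro θ; simp [pr, hv]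
  set T := triMap p s r hppos.ne' hrpos.ne' with hT
  -- the norm of the transposed vector
  have hform : ∀ θ, (p * cos θ + s * sin θ) ^ 2 + (r * sin θ) ^ 2
      = D + A * cos (2 * θ) + B * sin (2 * θ) := by
    intro θ
    rw [Real.cos_two_mul, Real.sin_two_mul]
    have hsc := Real.sin_sq_add_cos_sq θ
    have hs2 : sin θ ^ 2 = 1 - cos θ ^ 2 := by linarith
    have e1 : (p * cos θ + s * sin θ) ^ 2 + (r * sin θ) ^ 2
        = p ^ 2 * cos θ ^ 2 + 2 * (p * s) * (sin θ * cos θ) + (s ^ 2 + r ^ 2) * sin θ ^ 2 := by ring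
    rw [e1, hpsq, hps, hrsq, hs2]
    ring
  set f : E2 ≃ᵃ[ℝ] E2 := T.toAffineEquiv.trans (AffineEquiv.constVAdd ℝ E2 v) with hf
  have hfx : ∀ x, f x = v + T x := by intro x; simp [hf]
  have hcomp : IsCompact (f '' Metric.closedBall 0 1) := by
    apply (isCompact_closedBall _ _).image
    have h9 : Continuous (fun x => v + T x) :=
      continuous_const.add (LinearMap.continuous_of_finiteDimensional T.toLinearMap)
    have h10 : (fun x => f x) = fun x => v + T x := funext hfx
    have h11 : Continuous (fun x => f x) := by rw [h10]; exact h9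
    exact h11
  have hconv : Convex ℝ (f '' Metric.closedBall 0 1) :=
    (convex_closedBall (0 : E2) 1).affine_image f.toAffineMap
  have hne2 : (f '' Metric.closedBall (0 : E2) 1).Nonempty :=
    ⟨f 0, mem_image_of_mem _ (by simp)⟩
  refine ⟨f, eq_of_hs hK hc hne hcomp hconv hne2 fun θ => ?_⟩
  rw [hsup θ]
  set N := √(D + A * cos (2 * θ) + B * sin (2 * θ)) with hN
  have hNpos : 0 < N := Real.sqrt_pos.2 (hpos θ)
  have hNsq : N ^ 2 = (p * cos θ + s * sin θ) ^ 2 + (r * sin θ) ^ 2 := by
    rw [hform θ]; exact Real.sq_sqrt (hpos θ).le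
  apply le_antisymm
  · -- attained
    set y : E2 := !₂[(p * cos θ + s * sin θ) / N, (r * sin θ) / N] with hy
    have hyn : ‖y‖ ^ 2 = 1 := by
      rw [norm_sq_eq]
      simp only [hy, PiLp.toLp_apply, Matrix.cons_val_zero, Matrix.cons_val_one]
      rw [div_pow, div_pow, ← add_div, ← hNsq]
      exact div_self (pow_pos hNpos 2).ne'
    have hy1 : ‖y‖ ≤ 1 := by
      have : ‖y‖ ^ 2 ≤ 1 ^ 2 := by rw [hyn]; norm_num
      exact le_of_sq_le_sq this zero_le_one |>.trans le_rfl
    have h5 := le_hs hcomp (mem_image_of_mem f (mem_closedBall_zero_iff.2 hy1)) θ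
    refine le_trans (le_of_eq ?_) h5
    rw [hfx, pr_add, hprv, hT, pr_triMap]
    simp only [hy, PiLp.toLp_apply, Matrix.cons_val_zero, Matrix.cons_val_one]
    have : (p * cos θ + s * sin θ) / N * (p * cos θ + s * sin θ) + r * sin θ / N * (r * sin θ)
        = N ^ 2 / N := by rw [hNsq]; ring
    rw [this, pow_two, mul_div_assoc, div_self hNpos.ne', mul_one]
  · apply hs_le hcomp hne2
    rintro _ ⟨y, hy, rfl⟩
    rw [hfx, pr_add, hprv, hT, pr_triMap]
    have hy1 : ‖y‖ ≤ 1 := mem_closedBall_zero_iff.1 hy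
    have hy2 : y 0 ^ 2 + y 1 ^ 2 ≤ 1 := by
      rw [← norm_sq_eq]
      have := norm_nonneg y
      nlinarith
    have h6 : (y 0 * (p * cos θ + s * sin θ) + y 1 * (r * sin θ)) ^ 2 ≤ N ^ 2 := by
      rw [hNsq]
      nlinarith [sq_nonneg (y 0 * (r * sin θ) - y 1 * (p * cos θ + s * sin θ)),
        sq_nonneg (p * cos θ + s * sin θ), sq_nonneg (r * sin θ)]
    have h7 := abs_le_of_sq_le_sq h6 hNpos.le
    have h8 := (abs_le.1 h7).2
    linarith

/-- the string transitivity in terms of support functions, relative to any origin -/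
theorem main {K : Set E2} (hK : IsCompact K) (hc : Convex ℝ K) (hint : (interior K).Nonempty)
    (htr : ∀ ℓ1 : ℝ, (MeasureTheory.Measure.hausdorffMeasure 1 (frontier K)).toReal < ℓ1 →
        ∀ ℓ2 : ℝ,
          (MeasureTheory.Measure.hausdorffMeasure 1
              (frontier {x : EuclideanSpace ℝ (Fin 2) |
                (MeasureTheory.Measure.hausdorffMeasure 1
                  (frontier (convexHull ℝ (insert x K)))).toReal ≤ ℓ1})).toReal < ℓ2 →
          ∃ ℓ3 : ℝ,
            {y : EuclideanSpace ℝ (Fin 2) |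
              (MeasureTheory.Measure.hausdorffMeasure 1
                (frontier (convexHull ℝ (insert y
                  {x : EuclideanSpace ℝ (Fin 2) |
                    (MeasureTheory.Measure.hausdorffMeasure 1
                      (frontier (convexHull ℝ (insert x K)))).toReal ≤ ℓ1})))).toReal = ℓ2}
            = {y : EuclideanSpace ℝ (Fin 2) |
              (MeasureTheory.Measure.hausdorffMeasure 1
                (frontier (convexHull ℝ (insert y K)))).toReal = ℓ3}) :
    ∃ f : E2 ≃ᵃ[ℝ] E2, K = f '' Metric.closedBall 0 1 := by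
  obtain ⟨x0, hx0⟩ := hint
  have hint' : (interior K).Nonempty := ⟨x0, hx0⟩
  have hne : K.Nonempty := ⟨x0, interior_subset hx0⟩
  have hcontK := hs_continuous hK hne
  -- the translated body
  set K0 : Set E2 := (fun x => x + -x0) '' K with hK0
  have hK0c : IsCompact K0 := hK.image (by fun_prop)
  have hK0ne : K0.Nonempty := hne.image _
  have hK0conv : Convex ℝ K0 := by
    have := hc.translate (-x0)
    have e : (fun x : E2 => x + -x0) = (fun x => -x0 + x) := by
      funext y; exact add_comm _ _
    rw [hK0, e]; exact this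
  have h00 : (0 : E2) ∈ interior K0 := by
    have h1 := (Homeomorph.addRight (-x0)).image_interior K
    have h2 : K0 = (Homeomorph.addRight (-x0)) '' K := rfl
    rw [h2, ← h1]
    exact ⟨x0, hx0, by simp⟩
  have hsK0 : ∀ θ, hs K0 θ = hs K θ + pr (-x0) θ := hs_translate hK hne (-x0)
  have hsK0' : hs K0 = fun θ => hs K θ + pr (-x0) θ := funext hsK0
  have hFF : ∀ x, FF (hs K0) (x + -x0) = FF (hs K) x := by
    intro x
    rw [hsK0']
    exact FF_translate hcontK x (-x0)
  have hW : W K0 = W K := W_translate hK hne (-x0)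
  -- the sets of the statement
  have hset : ∀ l, {x : EuclideanSpace ℝ (Fin 2) |
      (MeasureTheory.Measure.hausdorffMeasure 1
        (frontier (convexHull ℝ (insert x K)))).toReal ≤ l} = LL (hs K) l := by
    intro l
    ext x
    simp only [Set.mem_ofPred_eq, LL]
    rw [perim_hull hK hc hint' x]
  have hLLt : ∀ l, LL (hs K0) l = (fun x => x + -x0) '' LL (hs K) l := by
    intro l
    ext y
    constructor
    · intro hy
      refine ⟨y + x0, ?_, by simp⟩
      show FF (hs K) (y + x0) ≤ l
      rw [← hFF, add_neg_cancel_right]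
      exact hy
    · rintro ⟨x, hx, rfl⟩
      show FF (hs K0) (x + -x0) ≤ l
      rw [hFF]; exact hx
  have hnn0 : ∀ s, 0 ≤ hs K0 s := by
    obtain ⟨r, hr, hlow⟩ := pos_of_interior hK0c h00
    intro s; exact hr.le.trans (hlow s)
  have hyp : Hyp K0 := by
    intro l hl x y hxy hlt
    have hl' : W K < l := by rw [← hW]; exact hl
    -- properties of the sublevel sets
    have hL0c : IsCompact (LL (hs K0) l) :=
      LL_compact (hs_continuous hK0c hK0ne) (hs_periodic K0) hnn0 l
    have hL0int : (0 : E2) ∈ interior (LL (hs K0) l) :=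
      LL_interior (hs_continuous hK0c hK0ne) hnn0 hl
    have hLeq : LL (hs K) l = (fun x => x + x0) '' LL (hs K0) l := by
      rw [hLLt, image_image]
      simp
    have hLc : IsCompact (LL (hs K) l) := by
      rw [hLeq]; exact hL0c.image (by fun_prop)
    have hLconv : Convex ℝ (LL (hs K) l) := LL_convex hcontK l
    have hLint : (interior (LL (hs K) l)).Nonempty := by
      have h1 := (Homeomorph.addRight x0).image_interior (LL (hs K0) l)
      have h2 : (Homeomorph.addRight x0) '' (LL (hs K0) l) = (fun x => x + x0) '' LL (hs K0) l := rfl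
      rw [h2, ← hLeq] at h1
      rw [← h1]
      exact ⟨_, mem_image_of_mem _ hL0int⟩
    have hLne : (LL (hs K) l).Nonempty := hLint.mono interior_subset
    have hcontL := hs_continuous hLc hLne
    have hsL : ∀ θ, hs (LL (hs K0) l) θ = hs (LL (hs K) l) θ + pr (-x0) θ := by
      intro θ
      rw [hLLt]; exact hs_translate hLc hLne (-x0) θ
    have hFFL : ∀ z, FF (hs (LL (hs K0) l)) z = FF (hs (LL (hs K) l)) (z + x0) := by
      intro z
      have e : hs (LL (hs K0) l) = fun θ => hs (LL (hs K) l) θ + pr (-x0) θ := funext hsL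
      rw [e]
      have := FF_translate hcontL (z + x0) (-x0)
      rw [← this]
      simp
    have hWL : W (LL (hs K0) l) = W (LL (hs K) l) := by
      rw [hLLt]; exact W_translate hLc hLne (-x0)
    rw [hFFL, hFFL] at hxy
    rw [hFFL, hWL] at hlt
    have hgoal : ∀ z, FF (hs K0) z = FF (hs K) (z + x0) := by
      intro z
      rw [← hFF (z + x0)]
      simp
    rw [hgoal, hgoal]
    obtain ⟨ℓ3, h3⟩ := htr l (by rw [perim_toReal hK hc hint']; exact hl')
      (FF (hs (LL (hs K) l)) (x + x0)) (by
        rw [hset l, perim_toReal hLc hLconv hLint]; exact hlt)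
    rw [hset l] at h3
    have hx : x + x0 ∈ {y : EuclideanSpace ℝ (Fin 2) |
              (MeasureTheory.Measure.hausdorffMeasure 1
                (frontier (convexHull ℝ (insert y (LL (hs K) l))))).toReal
                  = FF (hs (LL (hs K) l)) (x + x0)} := by
      simp only [Set.mem_ofPred_eq]
      exact perim_hull hLc hLconv hLint _
    have hy : y + x0 ∈ {y : EuclideanSpace ℝ (Fin 2) |
              (MeasureTheory.Measure.hausdorffMeasure 1
                (frontier (convexHull ℝ (insert y (LL (hs K) l))))).toReal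
                  = FF (hs (LL (hs K) l)) (x + x0)} := by
      simp only [Set.mem_ofPred_eq]
      rw [perim_hull hLc hLconv hLint _, hxy]
    rw [h3] at hx hy
    simp only [Set.mem_ofPred_eq] at hx hy
    rw [perim_hull hK hc hint'] at hx hy
    rw [hx, hy]
  obtain ⟨a, b, A, B, D, hpos, hsup⟩ := shape hK0c h00 hyp
  obtain ⟨f, hf⟩ := ellipse_of_support hK0c hK0conv hK0ne hpos hsup
  refine ⟨f.trans (AffineEquiv.constVAdd ℝ E2 x0), ?_⟩
  have h1 : K = (fun x => x0 + x) '' K0 := by
    rw [hK0, image_image]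
    simp
  rw [h1, hf, image_image]
  rfl

end Pool.Agent.N547.Str
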