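import Mathlib

set_option autoImplicit false
open Real Set MeasureTheory Filter Topology
open scoped ENNReal NNReal

namespace Pool.Agent.N547.Str

/-- a Lipschitz function whose derivative agrees almost everywhere with a continuous function is
everywhere differentiable with this derivative -/
theorem hasDerivAt_of_ae {C : ℝ≥0} {f G : ℝ → ℝ} (hf : LipschitzWith C f) (hG : Continuous G)
    (hae : ∀ᵐ θ, HasDerivAt f (G θ) θ) (θ : ℝ) : HasDerivAt f (G θ) θ := by
  have key : ∀ x, f x = f 0 + ∫ t in (0:ℝ)..x, G t := by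
    intro x
    have h1 : AbsolutelyContinuousOnInterval f 0 x :=
      (hf.lipschitzOnWith (s := uIcc 0 x)).absolutelyContinuousOnInterval
    have h2 := h1.integral_deriv_eq_sub
    have h3 : ∫ t in (0:ℝ)..x, deriv f t = ∫ t in (0:ℝ)..x, G t := by
      apply intervalIntegral.integral_congr_ae
      filter_upwards [hae] with t ht _
      exact ht.deriv
    rw [h3] at h2
    linarith
  have h4 : HasDerivAt (fun x => f 0 + ∫ t in (0:ℝ)..x, G t) (G θ) θ := by
    apply HasDerivAt.const_add
    exact intervalIntegral.integral_hasDerivAt_right (hG.intervalIntegrable _ _)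
      (hG.stronglyMeasurableAtFilter _ _) hG.continuousAt
  have h5 : f = fun x => f 0 + ∫ t in (0:ℝ)..x, G t := funext key
  rw [h5]
  exact h4

/-- the system `u' = k v`, `v' = - k u` -/
theorem solve_system {u v : ℝ → ℝ} {k : ℝ} (hu : ∀ θ, HasDerivAt u (k * v θ) θ)
    (hv : ∀ θ, HasDerivAt v (-(k * u θ)) θ) (θ : ℝ) :
    u θ = u 0 * cos (k * θ) + v 0 * sin (k * θ) := by
  have hc : ∀ θ, HasDerivAt (fun θ => cos (k * θ)) (-sin (k * θ) * k) θ := by
    intro θ
    have h1 : HasDerivAt (fun θ : ℝ => k * θ) k θ := by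
      simpa using (hasDerivAt_id θ).const_mul k
    exact h1.cos
  have hs : ∀ θ, HasDerivAt (fun θ => sin (k * θ)) (cos (k * θ) * k) θ := by
    intro θ
    have h1 : HasDerivAt (fun θ : ℝ => k * θ) k θ := by
      simpa using (hasDerivAt_id θ).const_mul k
    exact h1.sin
  have hF : ∀ θ, HasDerivAt (fun θ => u θ * cos (k * θ) - v θ * sin (k * θ)) 0 θ := by
    intro θ
    exact (((hu θ).mul (hc θ)).sub ((hv θ).mul (hs θ))).congr_deriv (by ring)
  have hG : ∀ θ, HasDerivAt (fun θ => u θ * sin (k * θ) + v θ * cos (k * θ)) 0 θ := by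
    intro θ
    exact (((hu θ).mul (hs θ)).add ((hv θ).mul (hc θ))).congr_deriv (by ring)
  have hF' := is_const_of_deriv_eq_zero (f := fun θ => u θ * cos (k * θ) - v θ * sin (k * θ))
    (fun x => (hF x).differentiableAt) (fun x => (hF x).deriv) θ 0
  have hG' := is_const_of_deriv_eq_zero (f := fun θ => u θ * sin (k * θ) + v θ * cos (k * θ))
    (fun x => (hG x).differentiableAt) (fun x => (hG x).deriv) θ 0
  simp only [mul_zero, Real.cos_zero, Real.sin_zero, mul_one, sub_zero, zero_add] at hF' hG'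
  have hsc := Real.sin_sq_add_cos_sq (k * θ)
  rw [← hF', ← hG']
  linear_combination (-(u θ)) * hsc

/-- the functional equation `q (θ + s) - q (θ - s) = sin (2 s) q' (θ)` for `s` near `π / 2` -/
theorem solve_functional {q : ℝ → ℝ} {s1 : ℝ} (h0 : 0 ≤ s1) (h1 : s1 < π / 2) {C : ℝ≥0}
    (hq : LipschitzWith C q)
    (hae : ∀ s, s1 < s → s < π / 2 → ∀ᵐ θ, HasDerivAt q ((q (θ + s) - q (θ - s)) / sin (2 * s)) θ) :
    ∃ A B D : ℝ, ∀ θ, q θ = D + A * cos (2 * θ) + B * sin (2 * θ) := by
  have hpi := Real.pi_pos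
  have hsin : ∀ s, s1 < s → s < π / 2 → 0 < sin (2 * s) := by
    intro s hs hs'
    exact Real.sin_pos_of_pos_of_lt_pi (by linarith) (by linarith)
  have hd : ∀ s, s1 < s → s < π / 2 → ∀ θ, HasDerivAt q ((q (θ + s) - q (θ - s)) / sin (2 * s)) θ := by
    intro s hs hs' θ
    refine hasDerivAt_of_ae (G := fun θ => (q (θ + s) - q (θ - s)) / sin (2 * s)) hq ?_ (hae s hs hs') θ
    have := hq.continuous
    fun_prop
  have hdiff : ∀ θ, HasDerivAt q (deriv q θ) θ := by
    intro θ
    exact (hd ((s1 + π / 2) / 2) (by linarith) (by linarith) θ).differentiableAt.hasDerivAt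
  have heq : ∀ s, s1 < s → s < π / 2 → ∀ θ, q (θ + s) - q (θ - s) = sin (2 * s) * deriv q θ := by
    intro s hs hs' θ
    rw [(hd s hs hs' θ).deriv, mul_div_cancel₀ _ (hsin s hs hs').ne']
  set s0 := (s1 + π / 2) / 2 with hs0
  have hs0a : s1 < s0 := by rw [hs0]; linarith
  have hs0b : s0 < π / 2 := by rw [hs0]; linarith
  -- second derivative
  have hd2 : ∀ θ, HasDerivAt (deriv q) ((deriv q (θ + s0) - deriv q (θ - s0)) / sin (2 * s0)) θ := by
    intro θ
    have e : deriv q = fun θ => (q (θ + s0) - q (θ - s0)) / sin (2 * s0) := by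
      funext θ
      exact (hd s0 hs0a hs0b θ).deriv
    have h2 : HasDerivAt (fun θ => (q (θ + s0) - q (θ - s0)) / sin (2 * s0))
        ((deriv q (θ + s0) - deriv q (θ - s0)) / sin (2 * s0)) θ := by
      apply HasDerivAt.div_const
      exact ((hdiff (θ + s0)).comp_add_const θ s0).sub ((hdiff (θ - s0)).comp_sub_const θ s0)
    rw [← e] at h2
    exact h2
  have hdiff2 : ∀ θ, HasDerivAt (deriv q) (deriv (deriv q) θ) θ := fun θ =>
    (hd2 θ).differentiableAt.hasDerivAt
  -- differentiate in `s`
  have hE1 : ∀ s, s1 < s → s < π / 2 → ∀ θ,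
      deriv q (θ + s) + deriv q (θ - s) = 2 * cos (2 * s) * deriv q θ := by
    intro s hs hs' θ
    have a1 : HasDerivAt (fun s => q (θ + s) - q (θ - s)) (deriv q (θ + s) - -(deriv q (θ - s))) s := by
      apply HasDerivAt.sub
      · exact (hdiff (θ + s)).comp_const_add θ s
      · exact (hdiff (θ - s)).comp_const_sub θ s
    have a2 : HasDerivAt (fun s => sin (2 * s) * deriv q θ) (cos (2 * s) * 2 * deriv q θ) s := by
      apply HasDerivAt.mul_const
      have h1 : HasDerivAt (fun θ : ℝ => 2 * θ) 2 s := by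
        simpa using (hasDerivAt_id s).const_mul 2
      exact h1.sin
    have a3 : (fun s => q (θ + s) - q (θ - s)) =ᶠ[𝓝 s] fun s => sin (2 * s) * deriv q θ := by
      filter_upwards [Ioo_mem_nhds hs hs'] with t ht
      exact heq t ht.1 ht.2 θ
    have a4 := (a1.congr_of_eventuallyEq a3.symm).unique a2
    linarith
  have hE2 : ∀ s, s1 < s → s < π / 2 → ∀ θ,
      deriv (deriv q) (θ + s) - deriv (deriv q) (θ - s) = -4 * sin (2 * s) * deriv q θ := by
    intro s hs hs' θ
    have a1 : HasDerivAt (fun s => deriv q (θ + s) + deriv q (θ - s))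
        (deriv (deriv q) (θ + s) + -(deriv (deriv q) (θ - s))) s := by
      apply HasDerivAt.add
      · exact (hdiff2 (θ + s)).comp_const_add θ s
      · exact (hdiff2 (θ - s)).comp_const_sub θ s
    have a2 : HasDerivAt (fun s => 2 * cos (2 * s) * deriv q θ)
        (2 * (-sin (2 * s) * 2) * deriv q θ) s := by
      apply HasDerivAt.mul_const
      apply HasDerivAt.const_mul
      have h1 : HasDerivAt (fun θ : ℝ => 2 * θ) 2 s := by
        simpa using (hasDerivAt_id s).const_mul 2
      exact h1.cos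
    have a3 : (fun s => deriv q (θ + s) + deriv q (θ - s)) =ᶠ[𝓝 s]
        fun s => 2 * cos (2 * s) * deriv q θ := by
      filter_upwards [Ioo_mem_nhds hs hs'] with t ht
      exact hE1 t ht.1 ht.2 θ
    have a4 := (a1.congr_of_eventuallyEq a3.symm).unique a2
    linarith
  -- `r = q'' + 4 q` is constant
  set r : ℝ → ℝ := fun θ => deriv (deriv q) θ + 4 * q θ with hr
  have hr1 : ∀ x d, 2 * s1 < d → d < π → r (x + d) = r x := by
    intro x d hd1 hd2
    have a1 := heq (d / 2) (by linarith) (by linarith) (x + d / 2)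
    have a2 := hE2 (d / 2) (by linarith) (by linarith) (x + d / 2)
    rw [show x + d / 2 + d / 2 = x + d by ring, show x + d / 2 - d / 2 = x by ring] at a1 a2
    simp only [hr]
    linarith
  have hr2 : ∀ x δ, 0 ≤ δ → δ < (π - 2 * s1) / 2 → r (x + δ) = r x := by
    intro x δ hδ0 hδ
    set d := (2 * s1 + π) / 2 with hdd
    have b1 := hr1 x (d + δ) (by rw [hdd]; linarith) (by rw [hdd]; linarith)
    have b2 := hr1 (x + δ) d (by rw [hdd]; linarith) (by rw [hdd]; linarith)
    rw [show x + δ + d = x + (d + δ) by ring, b1] at b2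
    exact b2.symm
  have hrd : ∀ x, HasDerivAt r 0 x := by
    intro x
    have hev : r =ᶠ[𝓝 x] fun _ => r x := by
      filter_upwards [Ioo_mem_nhds (show x - (π - 2 * s1) / 2 < x by linarith)
        (show x < x + (π - 2 * s1) / 2 by linarith)] with y hy
      rcases le_total x y with hxy | hxy
      · have := hr2 x (y - x) (by linarith) (by linarith [hy.2])
        rw [add_sub_cancel] at this
        exact this
      · have := hr2 y (x - y) (by linarith) (by linarith [hy.1])
        rw [add_sub_cancel] at this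
        exact this.symm
    exact (hasDerivAt_const x (r x)).congr_of_eventuallyEq hev
  have hrc : ∀ x, r x = r 0 := fun x =>
    is_const_of_deriv_eq_zero (fun x => (hrd x).differentiableAt) (fun x => (hrd x).deriv) x 0
  -- solve the equation
  set D := r 0 / 4 with hD
  have hu : ∀ θ, HasDerivAt (fun θ => q θ - D) (2 * (deriv q θ / 2)) θ := by
    intro θ
    exact ((hdiff θ).sub_const D).congr_deriv (by ring)
  have hv : ∀ θ, HasDerivAt (fun θ => deriv q θ / 2) (-(2 * (q θ - D))) θ := by
    intro θ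
    refine ((hdiff2 θ).div_const 2).congr_deriv ?_
    have := hrc θ
    have e : r θ = deriv (deriv q) θ + 4 * q θ := rfl
    rw [hD]
    linarith
  have hsol := solve_system (k := 2) (u := fun θ => q θ - D) (v := fun θ => deriv q θ / 2) hu hv
  refine ⟨q 0 - D, deriv q 0 / 2, D, fun θ => ?_⟩
  have := hsol θ
  linarith

/-- a Lipschitz function with `u' (θ) = u (θ + π / 2)` almost everywhere, `u (θ + π) = - u θ` -/
theorem solve_odd {u : ℝ → ℝ} {C : ℝ≥0} (hu : LipschitzWith C u) (hodd : ∀ θ, u (θ + π) = - u θ)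
    (hae : ∀ᵐ θ, HasDerivAt u (u (θ + π / 2)) θ) :
    ∀ θ, u θ = u 0 * cos θ + u (π / 2) * sin θ := by
  have hd : ∀ θ, HasDerivAt u (u (θ + π / 2)) θ := by
    intro θ
    refine hasDerivAt_of_ae (G := fun θ => u (θ + π / 2)) hu ?_ hae θ
    have := hu.continuous
    fun_prop
  intro θ
  have h1 : ∀ θ, HasDerivAt u (1 * u (θ + π / 2)) θ := by
    intro θ; rw [one_mul]; exact hd θ
  have h2 : ∀ θ, HasDerivAt (fun θ => u (θ + π / 2)) (-(1 * u θ)) θ := by
    intro θ
    refine ((hd (θ + π / 2)).comp_add_const θ (π / 2)).congr_deriv ?_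
    rw [show θ + π / 2 + π / 2 = θ + π by ring, hodd, one_mul]
  have := solve_system (k := 1) (u := u) (v := fun θ => u (θ + π / 2)) h1 h2 θ
  simpa using this

end Pool.Agent.N547.Str
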