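import Pool.Agent.R763.StrLevel
import Pool.Agent.N547.Str.Ode

set_option autoImplicit false
open Real Set MeasureTheory Filter Topology
open scoped ENNReal NNReal

namespace Pool.Agent.N547.Str

open Pool.Agent.R763.Str

/-- the differentiated relation between a convex curve and its string curve -/
theorem key_eq {h g : ℝ → ℝ} {θ s c : ℝ} (hs1 : 0 < sin s) (hc : 0 < cos s) (gpos : ∀ φ, 0 < g φ)
    (godd : ∀ φ, g φ - g (φ + π) = h φ - h (φ + π))
    (gev : ∀ φ, ((g φ + g (φ + π)) / 2) ^ 2 = ((h φ + h (φ + π)) / 2) ^ 2 + c)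
    (gθ : g θ = (h (θ + s) + h (θ - s)) / (2 * cos s))
    (gmin : ∀ φ, cos (φ - θ) * g θ + sin (φ - θ) * ((h (θ + s) - h (θ - s)) / (2 * sin s)) ≤ g φ)
    {d1 d2 : ℝ} (hd1 : HasDerivAt h d1 θ) (hd2 : HasDerivAt (fun φ => h (φ + π)) d2 θ) :
    sin (2 * s) * (2 * ((h θ + h (θ + π)) / 2) * ((d1 + d2) / 2)) =
      (h (θ + s) - h (θ - s) - 2 * sin s * ((d1 - d2) / 2)) *
        (h (θ + s) + h (θ - s) - 2 * cos s * ((h θ - h (θ + π)) / 2)) := by
  set D := (h (θ + s) - h (θ - s)) / (2 * sin s) with hD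
  have hE : ∀ φ, g φ = (h φ - h (φ + π)) / 2 + √(((h φ + h (φ + π)) / 2) ^ 2 + c) := by
    intro φ
    rw [← gev φ, Real.sqrt_sq (by have := gpos φ; have := gpos (φ + π); positivity)]
    have := godd φ
    linarith
  set E := (g θ + g (θ + π)) / 2 with hEdef
  have hEpos : 0 < E := by have := gpos θ; have := gpos (θ + π); rw [hEdef]; positivity
  have hEsq : √(((h θ + h (θ + π)) / 2) ^ 2 + c) = E := by
    rw [← gev θ, Real.sqrt_sq hEpos.le]
  have hEne : ((h θ + h (θ + π)) / 2) ^ 2 + c ≠ 0 := by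
    rw [← gev θ]; exact (pow_pos hEpos 2).ne'
  -- derivative of `g`
  have hdg : HasDerivAt g ((d1 - d2) / 2 + (2 * ((h θ + h (θ + π)) / 2) * ((d1 + d2) / 2)) / (2 * E)) θ := by
    have a1 : HasDerivAt (fun φ => (h φ - h (φ + π)) / 2) ((d1 - d2) / 2) θ :=
      (hd1.sub hd2).div_const 2
    have a2 : HasDerivAt (fun φ => (h φ + h (φ + π)) / 2) ((d1 + d2) / 2) θ :=
      (hd1.add hd2).div_const 2
    have a3 := ((a2.pow 2).add_const c).sqrt hEne
    have a4 := a1.add a3
    have e : g = (fun φ => (h φ - h (φ + π)) / 2) + fun φ => √(((h φ + h (φ + π)) / 2) ^ 2 + c) := by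
      funext φ; exact hE φ
    rw [e]
    refine a4.congr_deriv ?_
    simp only [Pi.pow_apply]
    rw [hEsq]
    norm_num
  have hm : HasDerivAt (fun φ => g φ - (cos (φ - θ) * g θ + sin (φ - θ) * D))
      ((d1 - d2) / 2 + (2 * ((h θ + h (θ + π)) / 2) * ((d1 + d2) / 2)) / (2 * E) - D) θ := by
    have b0 : HasDerivAt (fun φ => φ - θ) 1 θ := (hasDerivAt_id θ).sub_const θ
    have b1 : HasDerivAt (fun φ => cos (φ - θ)) (-sin (θ - θ) * 1) θ := b0.cos
    have b2 : HasDerivAt (fun φ => sin (φ - θ)) (cos (θ - θ) * 1) θ := b0.sin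
    have b3 := hdg.sub ((b1.mul_const (g θ)).add (b2.mul_const D))
    refine b3.congr_deriv ?_
    simp
  have hmin : IsLocalMin (fun φ => g φ - (cos (φ - θ) * g θ + sin (φ - θ) * D)) θ := by
    apply Filter.Eventually.of_forall
    intro φ
    simp only [sub_self, cos_zero, sin_zero, one_mul, zero_mul, add_zero]
    have := gmin φ
    linarith
  have hz := hmin.hasDerivAt_eq_zero hm
  have hEg : E = g θ - (h θ - h (θ + π)) / 2 := by
    rw [hEdef]; have := godd θ; linarith
  have h2 : 2 * ((h θ + h (θ + π)) / 2) * ((d1 + d2) / 2) = 2 * E * (D - (d1 - d2) / 2) := by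
    have : (2 * ((h θ + h (θ + π)) / 2) * ((d1 + d2) / 2)) / (2 * E) = D - (d1 - d2) / 2 := by
      linarith
    rw [div_eq_iff (by positivity)] at this
    rw [this]; ring
  rw [h2, Real.sin_two_mul]
  have h3 : 2 * sin s * D = h (θ + s) - h (θ - s) := by
    rw [hD]; field_simp
  have h4 : 2 * cos s * g θ = h (θ + s) + h (θ - s) := by
    rw [gθ]; field_simp
  rw [hEg, ← h3, ← h4]
  ring

theorem shape {K : Set E2} (hK : IsCompact K) (h0 : (0 : E2) ∈ interior K) (hyp : Hyp K) :
    ∃ a b A B D : ℝ, (∀ θ, 0 < D + A * cos (2 * θ) + B * sin (2 * θ)) ∧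
      ∀ θ, hs K θ = a * cos θ + b * sin θ + √(D + A * cos (2 * θ) + B * sin (2 * θ)) := by
  have hpi := Real.pi_pos
  have hne : K.Nonempty := ⟨0, interior_subset h0⟩
  obtain ⟨r, hr, hlow⟩ := pos_of_interior hK h0
  obtain ⟨R0, hR0⟩ := hK.isBounded.subset_closedBall 0
  set R := max R0 0 with hRdef
  have hRnn : 0 ≤ R := le_max_right _ _
  have hR : K ⊆ Metric.closedBall 0 R :=
    hR0.trans (Metric.closedBall_subset_closedBall (le_max_left _ _))
  have hlip := hs_lip hK hne hR
  have hup : ∀ θ, hs K θ ≤ R := by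
    intro θ
    apply hs_le hK hne
    intro y hy
    exact (pr_le_norm y θ).trans (by simpa using hR hy)
  set h := hs K with hh
  have hper : ∀ θ, h (θ + 2 * π) = h θ := hs_periodic K
  have hcont : Continuous h := hs_continuous hK hne
  obtain ⟨s1, hs1a, hs1b, hlev⟩ := level hK h0 hyp
  have hL : LipschitzWith (Real.toNNReal R) h := by
    apply LipschitzWith.of_dist_le_mul
    intro x y
    rw [Real.dist_eq, Real.dist_eq, Real.coe_toNNReal _ hRnn]
    exact hlip x y
  have hL2 : LipschitzWith (Real.toNNReal R) (fun φ => h (φ + π)) := by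
    apply LipschitzWith.of_dist_le_mul
    intro x y
    rw [Real.dist_eq, Real.dist_eq, Real.coe_toNNReal _ hRnn]
    have := hlip (x + π) (y + π)
    rwa [show x + π - (y + π) = x - y by ring] at this
  have hae1 := hL.ae_differentiableAt_real
  have hae2 := hL2.ae_differentiableAt_real
  set u : ℝ → ℝ := fun φ => (h φ - h (φ + π)) / 2 with hu
  set e : ℝ → ℝ := fun φ => (h φ + h (φ + π)) / 2 with he
  have hpp : ∀ φ, h (φ + π + π) = h φ := by
    intro φ; rw [show φ + π + π = φ + 2 * π by ring, hper]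
  have hueq : ∀ φ, h φ = u φ + e φ := by intro φ; simp only [hu, he]; ring
  have hepos : ∀ φ, 0 < e φ := by
    intro φ
    have a := hlow φ
    have b := hlow (φ + π)
    simp only [he]; linarith
  have heup : ∀ φ, e φ ≤ R := by
    intro φ
    have a := hup φ
    have b := hup (φ + π)
    simp only [he]; linarith
  have heper : ∀ φ, e (φ + π) = e φ := by
    intro φ; simp only [he]; rw [hpp]; ring
  -- pointwise relation
  have hrel : ∀ θ d1 d2, HasDerivAt h d1 θ → HasDerivAt (fun φ => h (φ + π)) d2 θ →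
      ∀ s, s1 < s → s < π / 2 →
      sin (2 * s) * (2 * e θ * ((d1 + d2) / 2)) =
      (h (θ + s) - h (θ - s) - 2 * sin s * ((d1 - d2) / 2)) *
        (h (θ + s) + h (θ - s) - 2 * cos s * u θ) := by
    intro θ d1 d2 hd1 hd2 s hs hs'
    obtain ⟨g, c, g1, g2, g3, g4, g5⟩ := hlev s hs hs' θ
    have hs0 : 0 < sin s := Real.sin_pos_of_pos_of_lt_pi (by linarith) (by linarith)
    have hc0 : 0 < cos s := Real.cos_pos_of_mem_Ioo ⟨by linarith, hs'⟩
    exact key_eq hs0 hc0 g1 g2 g3 g4 g5 hd1 hd2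
  -- the odd part
  have hodd0 : ∀ θ d1 d2, HasDerivAt h d1 θ → HasDerivAt (fun φ => h (φ + π)) d2 θ →
      (d1 - d2) / 2 = u (θ + π / 2) := by
    intro θ d1 d2 hd1 hd2
    have hcl : IsClosed {s : ℝ | sin (2 * s) * (2 * e θ * ((d1 + d2) / 2)) =
      (h (θ + s) - h (θ - s) - 2 * sin s * ((d1 - d2) / 2)) *
        (h (θ + s) + h (θ - s) - 2 * cos s * u θ)} := by
      apply isClosed_eq <;> fun_prop
    have hsub : Ioo s1 (π / 2) ⊆ {s : ℝ | sin (2 * s) * (2 * e θ * ((d1 + d2) / 2)) =
      (h (θ + s) - h (θ - s) - 2 * sin s * ((d1 - d2) / 2)) *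
        (h (θ + s) + h (θ - s) - 2 * cos s * u θ)} := by
      intro s hs
      exact hrel θ d1 d2 hd1 hd2 s hs.1 hs.2
    have hmem : π / 2 ∈ closure (Ioo s1 (π / 2)) := by
      rw [closure_Ioo hs1b.ne]
      exact ⟨hs1b.le, le_rfl⟩
    have h3 := (hcl.closure_subset_iff.2 hsub) hmem
    simp only [Set.mem_ofPred_eq] at h3
    rw [show 2 * (π / 2) = π by ring, Real.sin_pi, zero_mul, Real.sin_pi_div_two,
      Real.cos_pi_div_two] at h3
    have h4 : h (θ + π / 2) + h (θ - π / 2) - 2 * 0 * u θ ≠ 0 := by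
      have a := hlow (θ + π / 2)
      have b := hlow (θ - π / 2)
      have : 0 < h (θ + π / 2) + h (θ - π / 2) - 2 * 0 * u θ := by
        rw [mul_zero, zero_mul]; linarith
      exact this.ne'
    have h5 := (mul_eq_zero.1 h3.symm).resolve_right h4
    have h6 : h (θ + π / 2 + π) = h (θ - π / 2) := by
      rw [show θ + π / 2 + π = (θ - π / 2) + 2 * π by ring, hper]
    simp only [hu]
    rw [h6]
    linarith
  have huL : LipschitzWith (Real.toNNReal R) u := by
    apply LipschitzWith.of_dist_le_mul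
    intro x y
    rw [Real.dist_eq, Real.dist_eq, Real.coe_toNNReal _ hRnn]
    have a := hlip x y
    have b := hlip (x + π) (y + π)
    rw [show x + π - (y + π) = x - y by ring] at b
    simp only [hu]
    rw [abs_le] at a b ⊢
    constructor <;> linarith [a.1, a.2, b.1, b.2]
  have hsolu := solve_odd huL (fun θ => by simp only [hu]; rw [hpp]; ring) (by
    filter_upwards [hae1, hae2] with θ h1 h2
    have h3 := hodd0 θ _ _ h1.hasDerivAt h2.hasDerivAt
    rw [← h3]
    exact (h1.hasDerivAt.sub h2.hasDerivAt).div_const 2)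
  set a := u 0 with ha
  set b := u (π / 2) with hb
  have hud : ∀ θ, HasDerivAt u (-(a * sin θ) + b * cos θ) θ := by
    intro θ
    have e1 : u = fun θ => a * cos θ + b * sin θ := funext hsolu
    rw [e1]
    refine (((Real.hasDerivAt_cos θ).const_mul a).add ((Real.hasDerivAt_sin θ).const_mul b)).congr_deriv ?_
    ring
  -- the even part
  set q : ℝ → ℝ := fun φ => e φ ^ 2 with hq
  have hqL : LipschitzWith (Real.toNNReal (2 * R * R)) q := by
    apply LipschitzWith.of_dist_le_mul
    intro x y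
    rw [Real.dist_eq, Real.dist_eq, Real.coe_toNNReal _ (by positivity)]
    have a := hlip x y
    have b := hlip (x + π) (y + π)
    rw [show x + π - (y + π) = x - y by ring] at b
    have c1 : |e x - e y| ≤ R * |x - y| := by
      simp only [he]
      rw [abs_le] at a b ⊢
      constructor <;> linarith [a.1, a.2, b.1, b.2]
    have c2 : |e x + e y| ≤ 2 * R := by
      rw [abs_of_pos (add_pos (hepos x) (hepos y))]
      linarith [heup x, heup y]
    simp only [hq]
    rw [show e x ^ 2 - e y ^ 2 = (e x + e y) * (e x - e y) by ring, abs_mul]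
    calc |e x + e y| * |e x - e y| ≤ (2 * R) * (R * |x - y|) :=
          mul_le_mul c2 c1 (abs_nonneg _) (by positivity)
      _ = 2 * R * R * |x - y| := by ring
  obtain ⟨A, B, D, hsolq⟩ := solve_functional hs1a hs1b hqL (by
    intro s hs hs'
    filter_upwards [hae1, hae2] with θ h1 h2
    have hsin : 0 < sin (2 * s) := Real.sin_pos_of_pos_of_lt_pi (by linarith) (by linarith)
    have k1 := hrel θ _ _ h1.hasDerivAt h2.hasDerivAt s hs hs'
    have k2 : HasDerivAt u ((deriv h θ - deriv (fun φ => h (φ + π)) θ) / 2) θ :=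
      (h1.hasDerivAt.sub h2.hasDerivAt).div_const 2
    have k3 := k2.unique (hud θ)
    have k4 : HasDerivAt q (2 * e θ * ((deriv h θ + deriv (fun φ => h (φ + π)) θ) / 2)) θ := by
      have := ((h1.hasDerivAt.add h2.hasDerivAt).div_const 2).pow 2
      refine this.congr_deriv ?_
      simp [he]
    refine k4.congr_deriv ?_
    rw [eq_div_iff hsin.ne', mul_comm, k1, k3, hueq (θ + s), hueq (θ - s), hsolu (θ + s), hsolu (θ - s),
      hsolu θ]
    simp only [hq, Real.cos_add, Real.cos_sub, Real.sin_add, Real.sin_sub]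
    ring)
  refine ⟨a, b, A, B, D, ?_, ?_⟩
  · intro θ
    rw [← hsolq θ]
    exact pow_pos (hepos θ) 2
  · intro θ
    rw [← hsolq θ, hueq θ, hsolu θ]
    simp only [hq]
    rw [Real.sqrt_sq (hepos θ).le]

end Pool.Agent.N547.Str
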